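import Mathlib
import Pool.Agent.TH851.Fin3

set_option autoImplicit false

/-!
# Level sets of the growth exponent of Weyl sums: positive Hausdorff dimension for a set of
# exponents of positive measure, in every degree `d ≥ 2`
-/

namespace Pool.Agent.Results.MP_3c4aa6_nt.LevelSets

open Filter

/-- The Weyl sum `S_d(x; N)`. The coordinate `x i`, `i : Fin d` counted from `0`, is the
coefficient of `n ^ (i + 1)`. -/
noncomputable def weylSum (d : ℕ) (x : Fin d → ℝ) (N : ℕ) : ℂ :=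
  ∑ n ∈ Finset.Icc 1 N,
    Complex.exp (2 * (Real.pi : ℂ) * Complex.I *
      ((∑ i : Fin d, x i * (n : ℝ) ^ (i.val + 1) : ℝ) : ℂ))

/-- The growth exponent `limsup log |S_d(x; N)| / log N`, an upper limit of extended reals, with
`log 0 = -∞`. -/
noncomputable def sigma (d : ℕ) (x : Fin d → ℝ) : EReal :=
  limsup (fun N : ℕ =>
    ENNReal.log (ENNReal.ofReal ‖weylSum d x N‖) / ((Real.log N : ℝ) : EReal)) atTop

/-- The level set of points of `[0,1)^d` with growth exponent `α`. -/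
def Omega (d : ℕ) (α : ℝ) : Set (Fin d → ℝ) :=
  {x | (∀ i, x i ∈ Set.Ico (0 : ℝ) 1) ∧ sigma d x = (α : EReal)}

/-- the point `(0, y, 0, …, 0)` -/
noncomputable def pt (d : ℕ) (hd : 2 ≤ d) (y : ℝ) : Fin d → ℝ :=
  Pi.single (⟨1, by omega⟩ : Fin d) y

lemma weylSum_pt (d : ℕ) (hd : 2 ≤ d) (y : ℝ) (N : ℕ) :
    weylSum d (pt d hd y) N = TH851.W.SS y N := by
  unfold weylSum TH851.W.SS H520R3.e
  rw [Finset.range_eq_Ico, Finset.sum_Ico_eq_sum_range]
  rw [show Finset.Icc 1 N = Finset.Ico 1 (N + 1) from rfl, Finset.sum_Ico_eq_sum_range]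
  simp only [Nat.add_sub_cancel, Nat.sub_zero]
  apply Finset.sum_congr rfl
  intro n _
  have h : ∑ i : Fin d, pt d hd y i * ((1 + n : ℕ) : ℝ) ^ (i.val + 1)
      = y * ((n : ℝ) + 1) ^ 2 := by
    rw [Finset.sum_eq_single (⟨1, by omega⟩ : Fin d)]
    · unfold pt
      rw [Pi.single_eq_same]
      push_cast
      ring
    · intro i _ hi
      unfold pt
      rw [Pi.single_eq_of_ne hi, zero_mul]
    · intro h; exact absurd (Finset.mem_univ _) h
  rw [h]
  push_cast
  ring_nf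

lemma isometry_pt (d : ℕ) (hd : 2 ≤ d) : Isometry (pt d hd) :=
  Isometry.single (E := fun _ : Fin d => ℝ) (⟨1, by omega⟩ : Fin d)

/-- For every `d ≥ 2` and every `α` in `(2/3, 1)` the level set has positive Hausdorff dimension;
in particular the set of such exponents contains a measurable set of positive measure. -/
theorem result : ∀ d : ℕ, 2 ≤ d →
    (∀ α ∈ Set.Ioo (2 / 3 : ℝ) 1, 0 < dimH (Omega d α)) ∧
    ∃ A : Set ℝ, A ⊆ Set.Icc (0 : ℝ) 1 ∧ MeasurableSet A ∧ 0 < MeasureTheory.volume A ∧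
      ∀ α ∈ A, 0 < dimH (Omega d α) := by
  intro d hd
  have key : ∀ α ∈ Set.Ioo (2 / 3 : ℝ) 1, 0 < dimH (Omega d α) := by
    rintro α ⟨hα1, hα2⟩
    have hτ : 3 < 1 / (1 - α) := by
      rw [lt_div_iff₀ (by linarith)]; linarith
    have h := TH851.W.good_dim (1 / (1 - α)) hτ
    rw [← (isometry_pt d hd).dimH_image] at h
    refine lt_of_lt_of_le h (dimH_mono ?_)
    rintro _ ⟨y, ⟨⟨hy0, hy1⟩, hgood⟩, rfl⟩
    refine ⟨?_, ?_⟩
    · intro i
      unfold pt
      by_cases hi : i = (⟨1, by omega⟩ : Fin d)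
      · rw [hi, Pi.single_eq_same]
        exact ⟨hy0, by linarith⟩
      · rw [Pi.single_eq_of_ne hi]
        exact ⟨le_refl _, one_pos⟩
    · unfold sigma
      simp only [weylSum_pt]
      rw [TH851.W.sigma_good_ereal _ y hτ hgood]
      congr 1
      rw [one_div_one_div]
      ring
  refine ⟨key, Set.Ioo (2 / 3 : ℝ) 1, ?_, measurableSet_Ioo, ?_, key⟩
  · rintro α ⟨h1, h2⟩
    exact ⟨by linarith, h2.le⟩
  · rw [Real.volume_Ioo]
    simp only [ENNReal.ofReal_pos]
    norm_num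

end Pool.Agent.Results.MP_3c4aa6_nt.LevelSets
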